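import Pool.Agent.H85.CH2.Final

/-!
# MP_ab74d4_pr, Q2: the Hausdorff dimension of the non-Gaussian chaos on the circle, for every `γ > 0`

Q2 asks whether, for general i.i.d. centred coefficients of variance one (no further assumption on
their law), the Hausdorff dimension of the limit measure coincides with the one of the Gaussian case
with the same `γ`.

The complete answer, for every `γ > 0`, is:

* if `E |ξ|² log (1 + |ξ|) < ∞`, the limit measure has almost surely dimension `max (1 - γ²/4) 0`, and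
  it is almost surely nonzero for `0 < γ < 2` and almost surely zero for `γ ≥ 2`, exactly as in the
  Gaussian case;
* if `E |ξ|² log (1 + |ξ|) = ∞`, the limit measure is almost surely the zero measure, for every
  `γ > 0`.

So for every `γ` in the whole subcritical range `(0, 2)` the dimension is the Gaussian one if and only
if `E |ξ|² log (1 + |ξ|) < ∞`.

All definitions used in the statement are in this file. The coefficient called `ξ_k` in the problem
is `ξ (k - 1)` here.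
-/

set_option autoImplicit false

namespace Pool.Agent.Results.MP_ab74d4_pr.PhaseDiagram

open MeasureTheory ProbabilityTheory Filter Topology
open scoped ENNReal

/-- The unit circle `S¹ = {z ∈ ℂ : |z| = 1}`. -/
abbrev Circ : Type := Metric.sphere (0 : ℂ) 1

/-- The point `e^{iθ}` of the unit circle. -/
noncomputable def expPt (θ : ℝ) : Circ :=
  ⟨Complex.exp (θ * Complex.I), by simp [Complex.norm_exp_ofReal_mul_I]⟩

/-- Lebesgue (arc length) measure on the unit circle. -/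
noncomputable def arcLen : Measure Circ :=
  Measure.map expPt (volume.restrict (Set.Ioc (-Real.pi) Real.pi))

/-- The random polynomial `P_n(z) = ∑_{1 ≤ k ≤ n} k^{-1/2} ξ_k z^k`. -/
noncomputable def poly {Ω : Type*} (ξ : ℕ → Ω → ℂ) (n : ℕ) (ω : Ω) (z : Circ) : ℂ :=
  ∑ k ∈ Finset.range n, ((1 / √((k : ℝ) + 1) : ℝ) : ℂ) * ξ k ω * (z : ℂ) ^ (k + 1)

/-- The density `exp (γ Re P_n(z) - (γ²/2) Var (Re P_n(z)))`. -/
noncomputable def density {Ω : Type*} {mΩ : MeasurableSpace Ω} (P : Measure Ω)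
    (ξ : ℕ → Ω → ℂ) (γ : ℝ) (n : ℕ) (ω : Ω) (z : Circ) : ℝ :=
  Real.exp (γ * (poly ξ n ω z).re - γ ^ 2 / 2 * Var[fun ω' => (poly ξ n ω' z).re; P])

/-- The coefficients are i.i.d., centred, of variance one. -/
structure Coeff {Ω : Type*} {mΩ : MeasurableSpace Ω} (P : Measure Ω) (ξ : ℕ → Ω → ℂ) : Prop where
  prob : IsProbabilityMeasure P
  meas : ∀ k, Measurable (ξ k)
  indep : iIndepFun ξ P
  ident : ∀ k, IdentDistrib (ξ k) (ξ 0) P P
  mean : ∫ ω, ξ 0 ω ∂P = 0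
  var : ∫ ω, ‖ξ 0 ω‖ ^ 2 ∂P = 1

/-- The logarithmic moment `E |ξ|² log (1 + |ξ|)` is finite. -/
def LogMoment {Ω : Type*} {mΩ : MeasurableSpace Ω} (P : Measure Ω) (ξ : ℕ → Ω → ℂ) : Prop :=
  Integrable (fun ω => ‖ξ 0 ω‖ ^ 2 * Real.log (1 + ‖ξ 0 ω‖)) P

/-- `μlim` is the almost sure weak (= vague) limit of the random measures `μ_n` with density
`density P ξ γ n` with respect to arc length. -/
def ChaosLimit {Ω : Type*} {mΩ : MeasurableSpace Ω} (P : Measure Ω) (ξ : ℕ → Ω → ℂ) (γ : ℝ)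
    (μlim : Ω → FiniteMeasure Circ) : Prop :=
  ∃ μ : ℕ → Ω → FiniteMeasure Circ,
    (∀ n ω, (μ n ω : Measure Circ) =
      arcLen.withDensity (fun z => ENNReal.ofReal (density P ξ γ n ω z))) ∧
    ∀ᵐ ω ∂P, Tendsto (fun n => μ n ω) atTop (𝓝 (μlim ω))

/-- The Hausdorff dimension of a measure: the infimum of the Hausdorff dimensions of the Borel
sets whose complement is a null set. -/
noncomputable def dimMeas (μ : Measure Circ) : ℝ≥0∞ :=
  ⨅ (A : Set Circ) (_ : MeasurableSet A ∧ μ Aᶜ = 0), dimH A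

lemma Coeff.toHyp {Ω : Type*} {mΩ : MeasurableSpace Ω} {P : Measure Ω} {ξ : ℕ → Ω → ℂ}
    (h : Coeff P ξ) : Pool.Agent.Y977.CH.Hyp P ξ :=
  ⟨h.prob, h.meas, h.indep, h.ident, h.mean, h.var⟩

lemma toCoeff {Ω : Type*} {mΩ : MeasurableSpace Ω} {P : Measure Ω} {ξ : ℕ → Ω → ℂ}
    (h : Pool.Agent.Y977.CH.Hyp P ξ) : Coeff P ξ :=
  ⟨h.prob, h.meas, h.indep, h.ident, h.mean, h.var⟩

lemma main_finite {Ω : Type*} {mΩ : MeasurableSpace Ω} (P : Measure Ω) (ξ : ℕ → Ω → ℂ)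
    (h : Coeff P ξ) (γ : ℝ) (hγ : 0 < γ) (μlim : Ω → FiniteMeasure Circ)
    (hl : ChaosLimit P ξ γ μlim) (hlog : LogMoment P ξ) :
    ∀ᵐ ω ∂P, dimMeas (μlim ω : Measure Circ) = ENNReal.ofReal (1 - γ ^ 2 / 4) ∧
      (μlim ω = 0 ↔ 2 ≤ γ) := by
  obtain ⟨μ, hμ, hlim⟩ := hl
  exact Pool.Agent.H85.CH2.phase_finite P ξ h.toHyp γ hγ μ hμ μlim hlim hlog

lemma main_infinite {Ω : Type*} {mΩ : MeasurableSpace Ω} (P : Measure Ω) (ξ : ℕ → Ω → ℂ)
    (h : Coeff P ξ) (γ : ℝ) (hγ : 0 < γ) (μlim : Ω → FiniteMeasure Circ)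
    (hl : ChaosLimit P ξ γ μlim) (hlog : ¬ LogMoment P ξ) :
    ∀ᵐ ω ∂P, μlim ω = 0 ∧ dimMeas (μlim ω : Measure Circ) = 0 := by
  obtain ⟨μ, hμ, hlim⟩ := hl
  exact Pool.Agent.H85.CH2.phase_infinite P ξ h.toHyp γ hγ μ hμ μlim hlim hlog

/-- **Answer to Q2 for every `γ > 0`.** Let the coefficients be i.i.d., centred, with
`E |ξ|² = 1`. (1) The limit measure exists for every `γ > 0`. If `E |ξ|² log (1 + |ξ|) < ∞`, then
almost surely its Hausdorff dimension is `max (1 - γ²/4) 0`, and it is zero exactly when `γ ≥ 2`. If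
`E |ξ|² log (1 + |ξ|) = ∞` it is almost surely the zero measure. (2) In the Gaussian case the
dimension is almost surely `max (1 - γ²/4) 0` and the limit vanishes exactly when `γ ≥ 2`. (3) For
every `0 < γ < 2`: the dimension is almost surely the Gaussian one if and only if
`E |ξ|² log (1 + |ξ|) < ∞`. (4) There are real coefficients for which the limit measure is almost
surely zero for all `γ > 0`. -/
theorem result.{u} :
    (∀ (Ω : Type u) (_ : MeasurableSpace Ω) (P : Measure Ω) (ξ : ℕ → Ω → ℂ), Coeff P ξ →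
      ∀ γ : ℝ, 0 < γ →
        (∃ μlim : Ω → FiniteMeasure Circ, ChaosLimit P ξ γ μlim) ∧
        ∀ μlim : Ω → FiniteMeasure Circ, ChaosLimit P ξ γ μlim →
          (LogMoment P ξ →
            ∀ᵐ ω ∂P, dimMeas (μlim ω : Measure Circ) = ENNReal.ofReal (1 - γ ^ 2 / 4) ∧
              (μlim ω = 0 ↔ 2 ≤ γ)) ∧
          (¬ LogMoment P ξ →
            ∀ᵐ ω ∂P, μlim ω = 0 ∧ dimMeas (μlim ω : Measure Circ) = 0)) ∧
    (∀ (Ω : Type u) (_ : MeasurableSpace Ω) (P : Measure Ω) (g : ℕ → Ω → ℝ),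
      IsProbabilityMeasure P → (∀ k, Measurable (g k)) → iIndepFun g P →
      (∀ k, P.map (g k) = gaussianReal 0 1) →
        Coeff P (fun k ω => (g k ω : ℂ)) ∧
        ∀ γ : ℝ, 0 < γ → ∀ μlim : Ω → FiniteMeasure Circ,
          ChaosLimit P (fun k ω => (g k ω : ℂ)) γ μlim →
            ∀ᵐ ω ∂P, dimMeas (μlim ω : Measure Circ) = ENNReal.ofReal (1 - γ ^ 2 / 4) ∧
              (μlim ω = 0 ↔ 2 ≤ γ)) ∧
    (∀ (Ω : Type u) (_ : MeasurableSpace Ω) (P : Measure Ω) (ξ : ℕ → Ω → ℂ), Coeff P ξ →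
      ∀ γ : ℝ, 0 < γ → γ < 2 → ∀ μlim : Ω → FiniteMeasure Circ, ChaosLimit P ξ γ μlim →
        ((∀ᵐ ω ∂P, dimMeas (μlim ω : Measure Circ) = ENNReal.ofReal (1 - γ ^ 2 / 4)) ↔
          LogMoment P ξ)) ∧
    (∃ (Ω : Type) (_ : MeasurableSpace Ω) (P : Measure Ω) (ξ : ℕ → Ω → ℝ),
      Coeff P (fun k ω => (ξ k ω : ℂ)) ∧
      ∀ γ : ℝ, 0 < γ → ∀ μlim : Ω → FiniteMeasure Circ,
        ChaosLimit P (fun k ω => (ξ k ω : ℂ)) γ μlim →
          ∀ᵐ ω ∂P, μlim ω = 0 ∧ dimMeas (μlim ω : Measure Circ) = 0) := by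
  refine ⟨?_, ?_, ?_, ?_⟩
  · intro Ω mΩ P ξ h γ hγ
    refine ⟨?_, fun μlim hl => ⟨main_finite P ξ h γ hγ μlim hl, main_infinite P ξ h γ hγ μlim hl⟩⟩
    obtain ⟨μ, μlim, h1, h2⟩ := Pool.Agent.Y977.CH.exists_chaos P ξ h.toHyp γ
    exact ⟨μlim, μ, h1, h2⟩
  · intro Ω mΩ P g hP hm hind hlaw
    obtain ⟨h, hlog⟩ := Pool.Agent.Y977.CH.gaussian_case P g hP hm hind hlaw
    exact ⟨toCoeff h, fun γ hγ μlim hl => main_finite P _ (toCoeff h) γ hγ μlim hl hlog⟩
  · intro Ω mΩ P ξ h γ hγ hγ2 μlim hl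
    constructor
    · intro hdim
      by_contra hlog
      have h1 := main_infinite P ξ h γ hγ μlim hl hlog
      have hP := h.prob
      have hF : ∀ᵐ _ω ∂P, False := by
        filter_upwards [hdim, h1] with ω g1 g2
        rw [g2.2] at g1
        have h3 : (0 : ℝ) < 1 - γ ^ 2 / 4 := by nlinarith
        have h4 := ENNReal.ofReal_pos.mpr h3
        rw [← g1] at h4
        exact lt_irrefl _ h4
      exact hF.exists.choose_spec
    · intro hlog
      filter_upwards [main_finite P ξ h γ hγ μlim hl hlog] with ω g1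
      exact g1.1
  · obtain ⟨Ω, mΩ, P, ξ, h, hlog⟩ := Pool.Agent.Y977.CH.exists_heavy
    exact ⟨Ω, mΩ, P, ξ, toCoeff h, fun γ hγ μlim hl =>
      main_infinite P _ (toCoeff h) γ hγ μlim hl hlog⟩

end Pool.Agent.Results.MP_ab74d4_pr.PhaseDiagram
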